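import Pool.Agent.H46.LT.Def

/-!
# Module Cel: the cells of one level and one index
PROOF. Let `S = {(k, a) | 2 k + W = L + a ∧ idx θ k a = n}`. For `(k, a) ∈ S` the real number
`t = θ k - a = L - W - (2 - θ) k` satisfies `n ≤ |t| < n + 1` (`Nat.floor_eq_iff`). If two elements of
`S` have both `t ≥ 0`, or both `t < 0`, their values `t` differ by less than 1, but by
`(2 - θ) |k - k'| ≥ |k - k'|`; so `k = k'` and `a = a'`. So `(k, a) ↦ decide (0 ≤ t)` is injective on
`S`: `S` is finite with at most 2 elements.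
-/

set_option autoImplicit false

namespace Pool.Agent.H46.LT

theorem cells {θ : ℝ} (h0 : 0 ≤ θ) (h1 : θ ≤ 1) (W L n : ℕ) :
    ∃ C : Finset (ℕ × ℕ), C.card ≤ 2 ∧ ∀ k a : ℕ,
      (k, a) ∈ C ↔ 2 * k + W = L + a ∧ idx θ k a = n := by
  sorry

end Pool.Agent.H46.LT
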