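import Mathlib

/-!
# Module CmpA: compactness
PROOF. `K L = {β | ∃ x, P L x ∧ x / 2^L ≤ β ≤ (x + 1) / 2^L}` is a finite union of closed
intervals (`x < 2^L`), so compact, nonempty by `h`, decreasing by `hup` (`x / 2^L` lies in the
interval of `x / 2^(L-l)` of level `l`, with its whole interval). So there is `β` in all `K L`
(`IsCompact.nonempty_iInter_of_sequence_nonempty_isCompact_isClosed`).
-/

set_option autoImplicit false

namespace Pool.Agent.H46.LT

theorem compact_tree {P : ℕ → ℕ → Prop} (hlt : ∀ L x, P L x → x < 2 ^ L)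
    (hup : ∀ L x l, P L x → l ≤ L → P l (x / 2 ^ (L - l))) (h : ∀ L, ∃ x, P L x) :
    ∃ β : ℝ, ∀ L, ∃ x : ℕ, P L x ∧ (x : ℝ) / 2 ^ L ≤ β ∧ β ≤ ((x : ℝ) + 1) / 2 ^ L := by
  sorry

end Pool.Agent.H46.LT
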