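import Pool.Agent.H46.LT.Cls

/-!
# Module KeyA: the cell of a number, the index, and the arithmetic of the key lemma
PROOF. `exists_cell`: `k = Nat.log 2 q`, `a = Nat.log 2 ⌊1 / nd (q α)⌋₊` (`0 < nd (q α) ≤ 1/2`).
`cell_a`: `κ 2^a ≤ 2^(k+1)` (`cell_pow`) and `2 ≤ κ 2^T` give `2 * 2^a ≤ 2^T κ 2^a ≤ 2^T 2^(k+1)`.
`idx_le`: `|θ k' - a'| ≤ |θ k - a| + (k - k') + (a' - a)` (`0 ≤ θ ≤ 1`), and the floor of a real plus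
a natural number (`Nat.floor_add_natCast`, `Nat.floor_mono`).
`star`: put `u = k - k'`, `v = a' - a`. By `h1`, `h2`: `A ≤ 8 * 2^u`, `A ≤ 8 * 2^v`, so
`A^2 ≤ 64 * 2^(u+v)`. The claim is equivalent to `16 * 2^(7 w0 + w') ≤ A * 2^(u+v)`, because
`2 k = l + a + 7 w0`. Case `w' ≤ 3 w0`: `64 * 16 * 2^(10 w0) ≤ A * A^2`, as `A^2 ≥ 2^(11 + 7 w0)` and
`A ≥ 2^(6 + 3 w0)`. Case `2 w' ≤ u + v`: squares: `2^(8 + 14 w0) 2^(2 w') ≤ A^2 2^(2 (u+v))` since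
`2^(8 + 14 w0) ≤ A^4 / 64 ≤ A^2 2^(u+v)`.
-/

set_option autoImplicit false

namespace Pool.Agent.H46.LT

theorem exists_cell {κ α : ℝ} (hB : Bad κ α) {q : ℕ} (hq : 0 < q) : ∃ k a, Cell α k a q := by
  sorry

theorem cell_a {κ α : ℝ} (hB : Bad κ α) {k a q T : ℕ} (h : Cell α k a q) (hT : 2 ≤ κ * 2 ^ T) :
    a ≤ k + T := by
  sorry

theorem idx_le {θ : ℝ} (h0 : 0 ≤ θ) (h1 : θ ≤ 1) {k k' a a' : ℕ} (hk : k' ≤ k) (ha : a ≤ a') :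
    idx θ k' a' ≤ idx θ k a + ((k - k') + (a' - a)) := by
  sorry

theorem star {k k' a a' l A w0 w' : ℕ} (hk : k' ≤ k) (ha : a ≤ a')
    (h1 : A * 2 ^ k' ≤ 8 * 2 ^ k) (h2 : A * 2 ^ a ≤ 8 * 2 ^ a')
    (h3 : w' ≤ 3 * w0 ∨ 2 * w' ≤ (k - k') + (a' - a)) (h4 : l + a + 7 * w0 = 2 * k)
    (hA1 : 2 ^ (11 + 7 * w0) ≤ A ^ 2) (hA2 : 2 ^ (6 + 3 * w0) ≤ A) :
    16 * 2 ^ k * 2 ^ k' * 2 ^ w' ≤ A * 2 ^ l * 2 ^ a' := by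
  sorry

end Pool.Agent.H46.LT
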