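import Pool.Agent.H46.LT.Grw
import Pool.Agent.H46.LT.KeyA
import Pool.Agent.H46.LT.CmpA

/-!
# Module Cmp: the number beta
PROOF. Take `β` from `compact_tree` with `P = Alive α θ w E` (`alive_up`). The first property: an
alive `x` of level `L` is not in `E L` (`l = L`, `x / 2^0 = x`). Let `i`, `q > 0`; take the cell `(k, a)`
of `q` (`exists_cell`), `n = idx (θ i) k a`, `w0 = w i n`; `a ≤ k + w0` (`cell_a` with `T = w0` and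
`big`), `L = 2 k + w0 - a`. `β` is in the interval of an alive `x` of level `L`; `Free` at `l' = L`:
no integer `p` has `|p / q - x / 2^L| < 2 / 2^L`; with `p = round (q β)`:
`|β - p / q| ≥ 2 / 2^L - 1 / 2^L`, so `nd (q β) = q |β - p / q| ≥ q / 2^L ≥ 2^k 2^a / (2^(2k) 2^w0)`.
And `nd (q α) > 2^(-a-1)`, `q ≥ 2^k`: the product `q nd nd` is at least `1 / (2 * 2^w0)`.
The bound for `n`: `logb 2 (q^θ nd) = θ logb 2 q + logb 2 nd` with `k ≤ logb 2 q < k + 1`,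
`-a - 1 < logb 2 nd ≤ -a`, so it differs from `θ k - a` by less than 1 (`θ u - v` with
`0 ≤ u < 1`, `0 ≤ v < 1`, `0 ≤ θ ≤ 1`), and `n ≤ |θ k - a|` (`Nat.floor_le`).
-/

set_option autoImplicit false

namespace Pool.Agent.H46.LT

theorem exists_beta {α θ : ℕ → ℝ} {w : ℕ → ℕ → ℕ} {E : ℕ → Set ℕ} {κ : ℕ → ℝ}
    (hB : ∀ i, Bad (κ i) (α i)) (hθ0 : ∀ i, 0 ≤ θ i) (hθ1 : ∀ i, θ i ≤ 1)
    (hw : ∀ i, Wt (κ i) (w i)) (h : ∀ L, ∃ x, Alive α θ w E L x) :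
    ∃ β : ℝ, (∀ L, ∃ x : ℕ, x ∉ E L ∧ (x : ℝ) / 2 ^ L ≤ β ∧ β ≤ ((x : ℝ) + 1) / 2 ^ L) ∧
      ∀ i q : ℕ, 0 < q → ∃ n : ℕ,
        1 / (2 * 2 ^ w i n) ≤ q * nd (q * α i) * nd (q * β) ∧
        (n : ℝ) ≤ |Real.logb 2 ((q : ℝ) ^ θ i * nd (q * α i))| + 1 := by
  sorry

end Pool.Agent.H46.LT
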