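import Pool.Agent.H46.LT.FunA

/-!
# Module Cnv: conversion of the bounds
PROOF. `convert`: by `fE_le`: `2^(W + fE n) ≤ 2^(W+1) (n+1)^(1+ε)`, so `P ≥ 2^(-W-2) (n+1)^(-(1+ε))`;
`n + 1 ≤ |logb 2 z| + 2 = |log z| / log 2 + 2 ≤ 2 (1 + |log z|)` (`log 2 ≥ 1/2`). So
`c = 2^(-W-2) 2^(-(1+ε))`.
`convert_min`: let `P = q s t`, `x = q s ≥ κ`, `y = q t`, so `P = s y`. (1) `1 + |log x| ≤ C1 log (2 + x)`
(if `x ≥ 1` then `|log x| ≤ log (2 + x)`; if `κ ≤ x < 1` then `|log x| ≤ log (1 / κ)`; and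
`log (2 + x) ≥ log 2 ≥ 1/2`). (2) `y = P / s ≥ c exp τ / (1 + τ)^(1+ε)` with `τ = |log s| = log (1/s)`, and
`(1 + τ)^(1+ε) ≤ C2 exp (τ / 2)`, so `c / C2 * exp (τ / 2) ≤ y ≤ 2 + y`, `τ / 2 ≤ log (2 + y) + log (C2 / c)`,
so `1 + τ ≤ C3 log (2 + y)`. As `log (2 + min x y)` is one of `log (2 + x)`, `log (2 + y)`, the number
`c * min (C1^(-(1+ε))) (C3^(-(1+ε)))` works.
-/

set_option autoImplicit false

namespace Pool.Agent.H46.LT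

theorem convert {ε : ℝ} (hε : 0 < ε) (W : ℕ) : ∃ c : ℝ, 0 < c ∧ ∀ (P z : ℝ) (n : ℕ),
    1 / (2 * 2 ^ (W + fE ε n)) ≤ P → (n : ℝ) ≤ |Real.logb 2 z| + 1 →
    c ≤ P * (1 + |Real.log z|) ^ (1 + ε) := by
  sorry

theorem convert_min {ε κ c : ℝ} (hε : 0 < ε) (hκ : 0 < κ) (hc : 0 < c) :
    ∃ c' : ℝ, 0 < c' ∧ ∀ q s t : ℝ, 1 ≤ q → 0 < s → s ≤ 1 → 0 ≤ t → κ ≤ q * s →
      c ≤ q * s * t * (1 + |Real.log s|) ^ (1 + ε) →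
      c ≤ q * s * t * (1 + |Real.log (q * s)|) ^ (1 + ε) →
      c' ≤ q * s * t * Real.log (2 + min (q * s) (q * t)) ^ (1 + ε) := by
  sorry

end Pool.Agent.H46.LT
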