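import Mathlib

/-!
# Module DimA: a cover by intervals with a small sum
PROOF. By `MeasureTheory.Measure.hausdorffMeasure_apply` with `r = 1/8` the infimum is 0, so there is a
cover `t` of `S` with `EMetric.diam (t n) ≤ 1/8` and sum of `diam^s` (over the nonempty `t n`) less
than `c / 2`. For nonempty `t n` put `D = diam (t n)` (real), choose `y n` = the infimum of `t n`
(`t n` is bounded, `t n ⊆ Icc (y n) (y n + D)`), and `d n = D + δ n`, `δ n > 0` so small that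
`δ n ≤ 1/8`, `δ n ^ s ≤ c / 2 / 2^(n+1)`; `d n ^ s ≤ D^s + δ n^s` (`Real.rpow_add_le_add_rpow`,
`s ≤ 1`, `D, δ n ≥ 0`; for `D = 0` note `0^s = 0` because `s > 0`). For empty `t n` take `y n = 0`,
`d n = δ n`.
-/

set_option autoImplicit false

namespace Pool.Agent.H46.LT

theorem exists_cover {S : Set ℝ} {s : ℝ} (hs : 0 < s) (hs1 : s < 1)
    (h : MeasureTheory.Measure.hausdorffMeasure s S = 0) {c : ℝ} (hc : 0 < c) :
    ∃ y d : ℕ → ℝ, (∀ n, 0 < d n) ∧ (∀ n, d n ≤ 1 / 4) ∧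
      (∀ β ∈ S, ∃ n, y n ≤ β ∧ β ≤ y n + d n) ∧
      ∀ F : Finset ℕ, ∑ n ∈ F, d n ^ s ≤ c := by
  sorry

end Pool.Agent.H46.LT
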