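import Pool.Agent.H46.LT.DimA

/-!
# Module DimB: robust trees have dimension one
PROOF. It is enough that `μH[s] S ≠ 0` for every `0 < s < 1` (`le_dimH_of_hausdorffMeasure_ne_zero`,
then let `s → 1`: `ENNReal.le_of_forall_lt` or `le_of_forall_lt_imp_le_of_dense`). Suppose
`μH[s] S = 0`, take `g, η` from `H s` and `y, d` from `exists_cover` with `c = η / 12`. For every `n`
let `m n` be the natural number with `2^(-m-1) < d n ≤ 2^(-m)` (`m n ≥ 2` because `d n ≤ 1/4`). Put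
`E L = {x | ∃ n, m n = L ∧ x / 2^L ≤ y n + d n ∧ y n ≤ (x + 1) / 2^L}`. `E 0 = ∅`. For given `n` with
`m n = L` the natural numbers `x` satisfy `2^L y - 1 ≤ x ≤ 2^L y + 1`: at most 3. The number of `n` with
`m n = L` is finite and at most `c 2^(s (L+1))`, because each contributes at least `2^(-s (L+1))` to the
sums of `exists_cover`. So `ncard (E L) ≤ 3 c 2^(s (L+1)) = 3 c 2^(2 s) (2^s)^(L-1) ≤ 12 c g^(L-1) =
η g^(L-1)` (`L ≥ 1`, `2^s ≤ g`, `2^(2s) ≤ 4`). `H` gives `β ∈ S`; it is covered by some `n`; for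
`L = m n` the `x` of `H` is in `E L`: contradiction.
-/

set_option autoImplicit false

namespace Pool.Agent.H46.LT

theorem dim_one {S : Set ℝ} (H : ∀ s : ℝ, 0 < s → s < 1 → ∃ g η : ℝ, (2 : ℝ) ^ s < g ∧ 0 < η ∧
    ∀ E : ℕ → Set ℕ, E 0 = ∅ →
      (∀ L, 1 ≤ L → (E L).Finite ∧ ((E L).ncard : ℝ) ≤ η * g ^ (L - 1)) →
      ∃ β ∈ S, ∀ L, ∃ x : ℕ, x ∉ E L ∧ (x : ℝ) / 2 ^ L ≤ β ∧ β ≤ ((x : ℝ) + 1) / 2 ^ L) :
    1 ≤ dimH S := by
  sorry

end Pool.Agent.H46.LT
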