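import Mathlib

/-!
# Module FunA: the slowly growing function
`fE ε n = ⌈(1 + ε) log_2 (n + 1)⌉`. PROOF. `fE_le`, `le_fE`: `Nat.ceil_lt_add_one`,
`Nat.le_ceil`. `fE_slow`: `(1 + ε) log_2 (n + 1) + 1 ≤ n / 4 + C` for some natural `C` and all `n`
(`log` is `o(n)`, or `log t ≤ c t + C(c)`), so `n' < n + 2 (W + fE n')` gives `n' < 2 (n + 2 W + 2 C)`, so
`n' + 1 ≤ (n + 1) (4 W + 4 C + 2)` and `fE n' ≤ (1 + ε) log_2 (n + 1) + (1 + ε) log_2 (4 W + 4 C + 2)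
+ 1 ≤ fE n + 2 W` if `W` is large (`(1 + ε) log_2 (4 W + 4 C + 2) + 1 ≤ 2 W` eventually). So
`W + fE n' ≤ 3 W + fE n ≤ 3 (W + fE n)`.
-/

set_option autoImplicit false

namespace Pool.Agent.H46.LT

/-- `⌈(1 + ε) log_2 (n + 1)⌉`. -/
noncomputable def fE (ε : ℝ) (n : ℕ) : ℕ := ⌈(1 + ε) * Real.logb 2 (n + 1)⌉₊

theorem fE_le {ε : ℝ} (hε : 0 < ε) (n : ℕ) :
    (fE ε n : ℝ) ≤ (1 + ε) * Real.logb 2 (n + 1) + 1 := by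
  sorry

theorem le_fE {ε : ℝ} (n : ℕ) : (1 + ε) * Real.logb 2 (n + 1) ≤ fE ε n := Nat.le_ceil _

theorem fE_slow {ε : ℝ} (hε : 0 < ε) : ∃ W0 : ℕ, ∀ W, W0 ≤ W → ∀ n n' : ℕ,
    n' < n + 2 * (W + fE ε n') → W + fE ε n' ≤ 3 * (W + fE ε n) := by
  sorry

end Pool.Agent.H46.LT
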