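import Pool.Agent.H46.LT.FunA

/-!
# Module FunB: the series
PROOF. Choose `X` with `1/2 < X < 2^(-1/(1+ε))` (`< 1`), so `(1 + ε) log_2 (1 / X) > 1`, and `g < 2`
close to 2 with `1 < g`, `2^s < g` and `(2/g)^8 / 2 ≤ X` (the left side tends to `1/2 < X` as `g → 2`; for
example by continuity of `g ↦ (2/g)^8/2` at 2). Then with `Y = (2/g)^8/2 ≤ X < 1`:
`Y^(fE n) ≤ X^(fE n) ≤ X^((1+ε) log_2 (n+1)) = (n+1)^(-(1+ε) log_2 (1/X))` (real powers, `le_fE`) is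
summable (`Real.summable_nat_rpow` shifted by one).
-/

set_option autoImplicit false

namespace Pool.Agent.H46.LT

theorem fE_sum {ε : ℝ} (hε : 0 < ε) {s : ℝ} (hs : s < 1) : ∃ g : ℝ, 1 < g ∧ g < 2 ∧
    (2 : ℝ) ^ s < g ∧ (2 / g) ^ 8 / 2 < 1 ∧
    Summable (fun n : ℕ => ((2 / g) ^ 8 / 2) ^ fE ε n) := by
  sorry

end Pool.Agent.H46.LT
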