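import Pool.Agent.H46.LT.Per

/-!
# Module Grw: killed intervals of one cell among the alive intervals
PROOF. Let `w0 = w i (idx (θ i) k a)`, `l = L - 8 w0`. If `x` is in the set, then `y = x / 2^(L-l)` is
alive at level `l` (it contains the interval `x / 2` of level `L - 1`; `alive_up`,
`Nat.div_div_eq_div_mul`). So by `per_cell` the number is at most `cntA l * 12000 / κ *
(2^k 2^k / (2^a 2^l))`, and `2^k 2^k / 2^a = 2^L / 2^w0`. By `hg`, `g^(L-1-l) cntA l ≤ cntA (L-1)`. So it is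
at most `12000 / κ * 2^(L-l) / 2^w0 / g^(L-1-l) * cntA (L-1) = 24000 / κ / 2^w0 * (2/g)^(L-1-l) *
cntA (L-1)`, and `L - 1 - l ≤ 8 w0`, `2 / g ≥ 1`. (`l < L` since `w0 ≥ 1`: `big` and `κ ≤ 1/2`.)
-/

set_option autoImplicit false

namespace Pool.Agent.H46.LT

/-- `Alive` passes to larger intervals. -/
theorem alive_up {α θ : ℕ → ℝ} {w : ℕ → ℕ → ℕ} {E : ℕ → Set ℕ} {L x l : ℕ}
    (h : Alive α θ w E L x) (hl : l ≤ L) : Alive α θ w E l (x / 2 ^ (L - l)) := by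
  sorry

open Classical in
theorem cell_cost {α θ : ℕ → ℝ} {w : ℕ → ℕ → ℕ} {E : ℕ → Set ℕ} {κ : ℝ} {i : ℕ}
    (hB : Bad κ (α i)) (hθ0 : 0 ≤ θ i) (hθ1 : θ i ≤ 1)
    (hw : Wt κ (w i)) {g : ℝ} (hg1 : 1 ≤ g) (hg2 : g ≤ 2) {L : ℕ} (hL1 : 1 ≤ L)
    (hg : ∀ m, m + 1 < L → g * cntA α θ w E m ≤ cntA α θ w E (m + 1))
    {k a : ℕ} (hL : 2 * k + w i (idx (θ i) k a) = L + a) :
    (((Finset.range (2 ^ L)).filter
      (fun x => Alive α θ w E (L - 1) (x / 2) ∧ KillC (α i) k a L x)).card : ℝ) ≤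
      24000 / κ * ((2 / g) ^ 8 / 2) ^ w i (idx (θ i) k a) * cntA α θ w E (L - 1) := by
  sorry

end Pool.Agent.H46.LT
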