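import Pool.Agent.H46.LT.Def

/-!
# Module IdxA: the index of the lattice spanned by three vectors
PROOF. Let `M = Fin 3 → ℤ`, `A` the matrix with columns `v1, v2, v3` (`A i 0 = v1 i`, ...), `N` the
range of `Matrix.toLin' A`. `det A = ± det3 v1 v2 v3` (`Matrix.det_fin_three`), so `toLin' A` is
injective (`Matrix.eq_zero_of_mulVec_eq_zero`), `LinearEquiv.ofInjective` is an equivalence
`M ≃ N`, and `Submodule.natAbs_det_equiv` with it gives `Nat.card (M ⧸ N) = natAbs (det)`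
(the map of that lemma is `toLin' A`, `LinearMap.det_toLin'`). Finite since the number is not 0
(`Nat.finite_of_card_ne_zero`).
-/

set_option autoImplicit false

namespace Pool.Agent.H46.LT

theorem card_quot (v1 v2 v3 : Fin 3 → ℤ) (h : det3 v1 v2 v3 ≠ 0) :
    ∃ N : Submodule ℤ (Fin 3 → ℤ), Finite ((Fin 3 → ℤ) ⧸ N) ∧
      Nat.card ((Fin 3 → ℤ) ⧸ N) = (det3 v1 v2 v3).natAbs ∧
      ∀ v : Fin 3 → ℤ, v ∈ N ↔ ∃ m : Fin 3 → ℤ, ∀ i, v i = m 0 * v1 i + m 1 * v2 i + m 2 * v3 i := by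
  sorry

end Pool.Agent.H46.LT
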