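import Pool.Agent.H46.LT.IdxA

/-!
# Module IdxB: many vectors with a nonzero determinant
PROOF. Choose `v1, v2, v3 ∈ V` with maximal `|det3 v1 v2 v3| = d ≥ 1`, `d ≤ D`. Take `N` from
`card_quot`: `Nat.card (M ⧸ N) = d`. Every fibre of `V → M ⧸ N` has at most 125 elements: let `v0` be
in the fibre; for `v` in the fibre `v - v0 ∈ N` has coordinates `m 0, m 1, m 2`, and
`m 0 * det3 v1 v2 v3 = det3 (v - v0) v2 v3 = det3 v v2 v3 - det3 v0 v2 v3` has absolute value at
most `2 d` by maximality, so `|m 0| ≤ 2`, and in the same way `|m 1|, |m 2| ≤ 2`; `v` is determined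
by `m`, so the fibre injects into `Icc (-2) 2 × Icc (-2) 2 × Icc (-2) 2` (125 elements).
`Finset.card_le_mul_card_image` gives `V.card ≤ 125 * card of the image ≤ 125 d`.
-/

set_option autoImplicit false

namespace Pool.Agent.H46.LT

theorem count3 (V : Finset (Fin 3 → ℤ)) (D : ℕ)
    (hD : ∀ u ∈ V, ∀ v ∈ V, ∀ w ∈ V, |det3 u v w| ≤ (D : ℤ))
    (h0 : ∃ u ∈ V, ∃ v ∈ V, ∃ w ∈ V, det3 u v w ≠ 0) : V.card ≤ 125 * D := by
  sorry

end Pool.Agent.H46.LT
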