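import Pool.Agent.H46.LT.KeyA

/-!
# Module Key: a small vector kills the interval
Here `w0 = w (idx θ k a)`, `l + a + 7 w0 = 2 k`, `A^2 ≥ 2^(11 + 7 w0)`, `A ≥ 2^(6 + 3 w0)`, and
`(q, p)` satisfies `0 < q ≤ 8 * 2^k / A`, `nd (q α) ≤ 4 / (A 2^a)`, `|y q - p| ≤ 16 * 2^k / (A 2^l)`.
PROOF. Let `(k', a')` be the cell of `q` (`exists_cell`), `w' = w (idx θ k' a')`.
(1) `2^k' ≤ q ≤ 8 * 2^k / A`; `1 < 2^(a'+1) nd (q α)` gives `A 2^a < A 2^a 2^(a'+1) nd ≤ 8 * 2^a'`. As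
`A ≥ 64`, `k' ≤ k` and `a ≤ a'`.
(2) `a' ≤ k' + w'` by `cell_a` with `T = w'` and `hw.big`. Let `L' = 2 k' + w' - a'` (so
`L' + a' = 2 k' + w'`).
(3) `16 * 2^k * 2^k' * 2^w' ≤ A * 2^l * 2^a'` (`star`): if `3 w0 < w'`, then by `hw.slow`
`idx θ k a + 2 w' ≤ idx θ k' a' ≤ idx θ k a + (k - k') + (a' - a)` (`idx_le`).
(4) `L' ≤ l`: `2^L' * 2^a' = 2^k' * 2^k' * 2^w'`, so `16 * 2^k * 2^L' ≤ 2^k' * A * 2^l ≤ 8 * 2^k * 2^l`.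
(5) `|p / q - y| = |y q - p| / q ≤ 16 * 2^k / (A 2^l 2^k') ≤ 1 / 2^L'` by (3), and with
`x' = x / 2^(l - L')`, `y = x / 2^l`: `|x / 2^l - x' / 2^L'| < 1 / 2^L'`. So
`|p / q - x' / 2^L'| < 2 / 2^L'`: `Kill α θ w L' x'`, `L' ≤ l`, which contradicts `Free`.
-/

set_option autoImplicit false

namespace Pool.Agent.H46.LT

theorem key {κ α θ : ℝ} (hB : Bad κ α) (hθ0 : 0 ≤ θ) (hθ1 : θ ≤ 1) {w : ℕ → ℕ} (hw : Wt κ w)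
    {k a l x A : ℕ} (hk : l + a + 7 * w (idx θ k a) = 2 * k)
    (hA1 : 2 ^ (11 + 7 * w (idx θ k a)) ≤ A ^ 2) (hA2 : 2 ^ (6 + 3 * w (idx θ k a)) ≤ A)
    (hx : Free α θ w l x) {q : ℕ} {p : ℤ} (hq : 0 < q)
    (h0 : (A : ℝ) * q ≤ 8 * 2 ^ k) (h1 : A * 2 ^ a * nd (q * α) ≤ 4)
    (h2 : A * 2 ^ l * |(x : ℝ) / 2 ^ l * q - p| ≤ 16 * 2 ^ k) : False := by
  sorry

end Pool.Agent.H46.LT
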