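import Pool.Agent.H46.LT.LocA

/-!
# Module Loc: the local count
PROOF. `κ ≤ 1 * nd α ≤ 1/2` (`hB.2 1`, `abs_sub_round`). If `l ≤ k + 4`: `trivial_count`
(`144 ≤ 3000`). If `k + 5 ≤ l`: then `l > 0`, so with `w0 = w (idx θ k a)`: `8 w0 ≤ L`,
`l + 8 w0 = L`, `2 k + w0 = L + a`, hence `l + a + 7 w0 = 2 k`; `local_short` and
`2^(7 w0) = 2^k 2^k / (2^a 2^l)`, `6000 ≤ 3000 / κ`.
-/

set_option autoImplicit false

namespace Pool.Agent.H46.LT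

theorem local_count {κ α θ : ℝ} (hB : Bad κ α) (hθ0 : 0 ≤ θ) (hθ1 : θ ≤ 1) {w : ℕ → ℕ}
    (hw : Wt κ w) {k a L l x : ℕ}
    (hL : 2 * k + w (idx θ k a) = L + a) (hl : l = L - 8 * w (idx θ k a))
    (hx : Free α θ w l x) :
    ((Frac α k a ((x : ℝ) / 2 ^ l) (2 / 2 ^ l)).ncard : ℝ) ≤
      3000 / κ * (2 ^ k * 2 ^ k / (2 ^ a * 2 ^ l)) := by
  sorry

end Pool.Agent.H46.LT
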