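import Mathlib

/-!
# Module PlnA: pigeonhole in a square
PROOF. The map `v ↦ (min (A-1) ⌊(t1 v + 1) / 2 * A⌋₊, min (A-1) ⌊(t2 v + 1) / 2 * A⌋₊)` from `V` to
`range A ×ˢ range A` (`A^2` elements, fewer than `V.card`) is not injective
(`Finset.exists_ne_map_eq_of_card_lt_of_maps_to`). If `min (A-1) ⌊y⌋₊ = min (A-1) ⌊y'⌋₊` with
`0 ≤ y, y' ≤ A`, then `|y - y'| ≤ 1`; here `y = (t v + 1) / 2 * A`, so `|t v - t v'| ≤ 2 / A`.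
-/

set_option autoImplicit false

namespace Pool.Agent.H46.LT

theorem pigeon {ι : Type*} (V : Finset ι) (t1 t2 : ι → ℝ) (h1 : ∀ v ∈ V, |t1 v| ≤ 1)
    (h2 : ∀ v ∈ V, |t2 v| ≤ 1) (A : ℕ) (hA : 1 ≤ A) (hV : A ^ 2 < V.card) :
    ∃ v ∈ V, ∃ v' ∈ V, v ≠ v' ∧ |t1 v - t1 v'| ≤ 2 / A ∧ |t2 v - t2 v'| ≤ 2 / A := by
  sorry

end Pool.Agent.H46.LT
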