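import Pool.Agent.H46.LT.Def
import Pool.Agent.H46.LT.PlnA

/-!
# Module PlnB: many vectors in a plane
PROOF. Take `i j` from `h2` and choose `v1, v2 ∈ V` with `|M|` maximal, `M = v1 i * v2 j - v1 j * v2 i`,
so `M ≠ 0` (`Finset.exists_max_image` on `V ×ˢ V`). For `v ∈ V` put
`t1 v = (v i * v2 j - v j * v2 i) / M`, `t2 v = (v1 i * v j - v1 j * v i) / M` (reals): by maximality
`|t1 v|, |t2 v| ≤ 1`, and `M * v l = (v i * v2 j - v j * v2 i) * v1 l + (v1 i * v j - v1 j * v i) * v2 l`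
for all `l : Fin 3`: for `l = i` and `l = j` an identity, for the third `l` it is
`det3 v v1 v2 = 0` up to sign (`fin_cases i <;> fin_cases j <;> fin_cases l`, the cases `i = j` have
`M = 0`). `pigeon` gives `v ≠ v'` in `V` with `|t1 v - t1 v'|, |t2 v - t2 v'| ≤ 2 / A`. Take
`x = v - v'`, `s1 = t1 v - t1 v'`, `s2 = t2 v - t2 v'`.
-/

set_option autoImplicit false

namespace Pool.Agent.H46.LT

theorem plane (V : Finset (Fin 3 → ℤ))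
    (h3 : ∀ u ∈ V, ∀ v ∈ V, ∀ w ∈ V, det3 u v w = 0)
    (h2 : ∃ u ∈ V, ∃ v ∈ V, ∃ i j : Fin 3, u i * v j - u j * v i ≠ 0)
    (A : ℕ) (hA : 1 ≤ A) (hV : A ^ 2 < V.card) :
    ∃ (x : Fin 3 → ℤ) (v1 v2 : Fin 3 → ℤ) (s1 s2 : ℝ), x ≠ 0 ∧ v1 ∈ V ∧ v2 ∈ V ∧
      |s1| ≤ 2 / A ∧ |s2| ≤ 2 / A ∧ ∀ i, (x i : ℝ) = s1 * v1 i + s2 * v2 i := by
  sorry

end Pool.Agent.H46.LT
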