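import Pool.Agent.H46.LT.Cls

/-!
# Module Trv: the trivial count of the fractions, for long intervals
PROOF. `frac_finite`: `Frac` is contained in the image of the finite set of pairs `(q, p)` with
`q < 2^(k+1)` and `|p| ≤ 2^(k+1) (|y| + r)`. `trivial_count`: it is contained in the union over the
`q` of the cell of the images of the integers `p` with `|p - q y| < 2 q / 2^l` (`q > 0`); for every
`q` these are at most `4 q / 2^l + 1 ≤ 8 * 2^k / 2^l + 1 ≤ 24 * 2^k / 2^l` integers, because
`1 ≤ 16 * 2^k / 2^l` (`l ≤ k + 4`). Multiply with `card_cell`: `6 * 24 = 144`.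
-/

set_option autoImplicit false

namespace Pool.Agent.H46.LT

theorem frac_finite (α : ℝ) (k a : ℕ) (y r : ℝ) : (Frac α k a y r).Finite := by
  sorry

theorem trivial_count {κ α : ℝ} (hB : Bad κ α) (k a l : ℕ) (y : ℝ) (hl : l ≤ k + 4) :
    ((Frac α k a y (2 / 2 ^ l)).ncard : ℝ) ≤ 144 / κ * (2 ^ k * 2 ^ k / (2 ^ a * 2 ^ l)) := by
  sorry

end Pool.Agent.H46.LT
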