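import Pool.Agent.H46.LT.Def
import Pool.Agent.H46.LT.FunB

/-!
# Module Par: choice of the parameters
PROOF. Take `g` from `fE_sum`, `η = (2 - g) / 2`, `X = (2/g)^8 / 2 < 1` (`X > 0`), `S = ∑' n, X^(fE n)`,
`W0` from `fE_slow`. For every `i` choose `T i` with `2 ≤ κ i * 2^(T i)` and then `W i` so large that
`W i ≥ W0`, `W i ≥ 2 T i + i + 1` and `2 (24000 / κ i) X^(W i) S ≤ η / 2^(i+1)`. With
`w i n = W i + fE n`: `big`: `2^(w i n) ≥ 2^(T i)`; the double sum is at most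
`∑ i < L, η / 2^(i+1) ≤ η = 2 - g - η`.
-/

set_option autoImplicit false

namespace Pool.Agent.H46.LT

theorem params {ε : ℝ} (hε : 0 < ε) {s : ℝ} (hs : s < 1) (κ : ℕ → ℝ) (hκ : ∀ i, 0 < κ i) :
    ∃ (g η : ℝ) (T W : ℕ → ℕ), 1 ≤ g ∧ g ≤ 2 ∧ (2 : ℝ) ^ s < g ∧ 0 < η ∧
      (∀ i, 2 ≤ κ i * 2 ^ T i) ∧
      (∀ i n, 2 * T i + i + 1 ≤ W i + fE ε n) ∧ (∀ i, Wt (κ i) (fun n => W i + fE ε n)) ∧
      ∀ L : ℕ, ∑ i ∈ Finset.range L, ∑ n ∈ Finset.range (L + 1),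
        2 * (24000 / κ i) * ((2 / g) ^ 8 / 2) ^ (W i + fE ε n) ≤ 2 - g - η := by
  sorry

end Pool.Agent.H46.LT
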