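import Pool.Agent.H46.LT.Pos
import Pool.Agent.H46.LT.Cmp
import Pool.Agent.H46.LT.Par
import Pool.Agent.H46.LT.Cnv
import Pool.Agent.H46.LT.DimB

/-!
# Assembly
-/

set_option autoImplicit false

namespace Pool.Agent.H46.LT

theorem main_seq {ε : ℝ} (hε : 0 < ε) (α θ : ℕ → ℝ) (h : ∀ i, ∃ κ, Bad κ (α i))
    (hθ0 : ∀ i, 0 ≤ θ i) (hθ1 : ∀ i, θ i ≤ 1) :
    dimH {β : ℝ | ∀ i, ∃ c : ℝ, 0 < c ∧ ∀ q : ℕ, 0 < q →
      c ≤ q * nd (q * α i) * nd (q * β) *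
        (1 + |Real.log ((q : ℝ) ^ θ i * nd (q * α i))|) ^ (1 + ε)} = 1 := by
  choose κ hκ using h
  refine le_antisymm ?_ ?_
  · calc _ ≤ dimH (Set.univ : Set ℝ) := dimH_mono (Set.subset_univ _)
      _ = 1 := Real.dimH_univ
  · refine dim_one fun s hs0 hs1 => ?_
    obtain ⟨g, η, T, W, hg1, hg2, hgs, hη, hT, hi, hw, hsum⟩ :=
      params hε hs1 κ (fun i => (hκ i).1)
    refine ⟨g, η, hgs, hη, fun E hE0 hE => ?_⟩
    obtain ⟨β, hβ1, hβ2⟩ := exists_beta hκ hθ0 hθ1 hw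
      (alive_exists hκ hθ0 hθ1 hw hT hi hg1 hg2 hη.le hsum hE0 hE)
    refine ⟨β, fun i => ?_, hβ1⟩
    obtain ⟨c, hc, hcv⟩ := convert hε (W i)
    refine ⟨c, hc, fun q hq => ?_⟩
    obtain ⟨n, h1, h2⟩ := hβ2 i q hq
    exact hcv _ _ n h1 h2

end Pool.Agent.H46.LT
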