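import Pool.Agent.H46.LT.Stp

/-!
# Module Pos: alive intervals exist at every level
PROOF. `cntA 0 = 1`: the interval `0` of level 0 is alive, because `0 ∉ E 0` and `Kill` at level 0 is
impossible by `kill_lt` (`i < 0`). By strong induction with `step`: `g * cntA m ≤ cntA (m + 1)` for all
`m`, and `cntA m ≥ g^m > 0`; the hypothesis `hE` of `step` follows from `hE` here and
`g^(L-1) ≤ cntA (L-1)` (`η ≥ 0`).
-/

set_option autoImplicit false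

namespace Pool.Agent.H46.LT

theorem alive_exists {α θ : ℕ → ℝ} {w : ℕ → ℕ → ℕ} {E : ℕ → Set ℕ} {κ : ℕ → ℝ}
    (hB : ∀ i, Bad (κ i) (α i)) (hθ0 : ∀ i, 0 ≤ θ i) (hθ1 : ∀ i, θ i ≤ 1)
    (hw : ∀ i, Wt (κ i) (w i)) {T : ℕ → ℕ} (hT : ∀ i, 2 ≤ κ i * 2 ^ T i)
    (hi : ∀ i n, 2 * T i + i + 1 ≤ w i n) {g η : ℝ} (hg1 : 1 ≤ g) (hg2 : g ≤ 2) (hη : 0 ≤ η)
    (hsum : ∀ L : ℕ, ∑ i ∈ Finset.range L, ∑ n ∈ Finset.range (L + 1),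
      2 * (24000 / κ i) * ((2 / g) ^ 8 / 2) ^ w i n ≤ 2 - g - η)
    (hE0 : E 0 = ∅) (hE : ∀ L, 1 ≤ L → (E L).Finite ∧ ((E L).ncard : ℝ) ≤ η * g ^ (L - 1)) :
    ∀ L, ∃ x, Alive α θ w E L x := by
  sorry

end Pool.Agent.H46.LT
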