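import Pool.Agent.H46.LT.StpA

/-!
# Module Stp: one step of the tree
PROOF. The intervals `x < 2^L` of level `L` whose parent `x / 2` is alive at level `L - 1` are
`2 cntA (L-1)` in number (`2 y, 2 y + 1`), and such an `x` is alive iff `x ∉ E L` and it is not killed at
level `L` by any `α i` (`x / 2^(L-l') = (x/2) / 2^(L-1-l')` for `l' < L`). If it is killed by `α i`, then
`i < L` (`kill_lt`). So the number of those which are not alive is at most the sum over `i < L` of the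
numbers in `kill_cost`, plus `(E L).ncard ≤ η cntA (L-1)`; by `hsum` at most `(2 - g) cntA (L-1)`.
-/

set_option autoImplicit false

namespace Pool.Agent.H46.LT

theorem step {α θ : ℕ → ℝ} {w : ℕ → ℕ → ℕ} {E : ℕ → Set ℕ} {κ : ℕ → ℝ}
    (hB : ∀ i, Bad (κ i) (α i)) (hθ0 : ∀ i, 0 ≤ θ i) (hθ1 : ∀ i, θ i ≤ 1)
    (hw : ∀ i, Wt (κ i) (w i)) {T : ℕ → ℕ} (hT : ∀ i, 2 ≤ κ i * 2 ^ T i)
    (hi : ∀ i n, 2 * T i + i + 1 ≤ w i n) {g η : ℝ} (hg1 : 1 ≤ g) (hg2 : g ≤ 2)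
    (hsum : ∀ L : ℕ, ∑ i ∈ Finset.range L, ∑ n ∈ Finset.range (L + 1),
      2 * (24000 / κ i) * ((2 / g) ^ 8 / 2) ^ w i n ≤ 2 - g - η)
    {L : ℕ} (hL1 : 1 ≤ L) (hEf : (E L).Finite)
    (hE : ((E L).ncard : ℝ) ≤ η * cntA α θ w E (L - 1))
    (hg : ∀ m, m + 1 < L → g * cntA α θ w E m ≤ cntA α θ w E (m + 1)) :
    g * cntA α θ w E (L - 1) ≤ cntA α θ w E L := by
  sorry

end Pool.Agent.H46.LT
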