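import Pool.Agent.H46.LT.Grw
import Pool.Agent.H46.LT.Cel

/-!
# Module StpA: the cost of one number at one level
PROOF. If `x` is killed at level `L` through the cell `(k, a)`, which is then not empty, `a ≤ k + T`
(`cell_a`), so with `n = idx θ k a` and `2 k + w n = L + a`: `L ≥ k + w n - T ≥ k + T + i + 1`, and
`n ≤ |θ k - a| ≤ max k a ≤ k + T`, so `i < L` and `n ≤ L`. So the set is contained in the union over
`n ≤ L` and the at most two pairs `(k, a)` of `cells h0 h1 (w i n) L n` of the sets of `cell_cost`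
(`Finset.card_biUnion_le`).
-/

set_option autoImplicit false

namespace Pool.Agent.H46.LT

theorem kill_lt {κ α θ : ℝ} (hB : Bad κ α) {w : ℕ → ℕ} {T i : ℕ} (hT : 2 ≤ κ * 2 ^ T)
    (hi : ∀ n, 2 * T + i + 1 ≤ w n) {L x : ℕ} (h : Kill α θ w L x) : i < L := by
  sorry

open Classical in
theorem kill_cost {α θ : ℕ → ℝ} {w : ℕ → ℕ → ℕ} {E : ℕ → Set ℕ} {κ : ℝ} {i : ℕ}
    (hB : Bad κ (α i)) (hθ0 : 0 ≤ θ i) (hθ1 : θ i ≤ 1) (hw : Wt κ (w i)) {T : ℕ}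
    (hT : 2 ≤ κ * 2 ^ T) (hi : ∀ n, 2 * T + i + 1 ≤ w i n)
    {g : ℝ} (hg1 : 1 ≤ g) (hg2 : g ≤ 2) {L : ℕ} (hL1 : 1 ≤ L)
    (hg : ∀ m, m + 1 < L → g * cntA α θ w E m ≤ cntA α θ w E (m + 1)) :
    (((Finset.range (2 ^ L)).filter
      (fun x => Alive α θ w E (L - 1) (x / 2) ∧ Kill (α i) (θ i) (w i) L x)).card : ℝ) ≤
      (∑ n ∈ Finset.range (L + 1), 2 * (24000 / κ) * ((2 / g) ^ 8 / 2) ^ w i n) *
        cntA α θ w E (L - 1) := by
  sorry

end Pool.Agent.H46.LT
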